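import Mathlib

namespace Pool.Agent.Results.MP_af568f_an.NoBasicSequence

open Filter Topology Cardinal Set

/-- `x` is a basis of the closure of its linear span -/
def IsBasicSeq (K : Type) {U : Type} [RCLike K] [AddCommGroup U] [Module K U] [TopologicalSpace U]
    (x : ℕ → U) : Prop :=
  ∀ v ∈ closure (Submodule.span K (range x) : Set U), ∃! a : ℕ → K,
    Tendsto (fun N => ∑ n ∈ Finset.range N, a n • x n) atTop (𝓝 v)

variable {K : Type} [RCLike K]

lemma card_K : #K = 𝔠 := by
  apply le_antisymm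
  · have : #K ≤ #(ℝ × ℝ) := mk_le_of_injective (f := fun z : K => (RCLike.re z, RCLike.im z))
      fun a b h => RCLike.ext (congrArg Prod.fst h) (congrArg Prod.snd h)
    simpa [mk_real] using this
  · simpa [mk_real] using mk_le_of_injective (RCLike.ofReal_injective (K := K))

lemma avoid {I T : Type} (hI : #I ≤ 𝔠) (hT : #T < 𝔠) (w : T → I →₀ K) :
    ∃ f : (I →₀ K) →ₗ[K] K, ∀ t, w t ≠ 0 → f (w t) ≠ 0 := by
  let S : Set K := ⋃ t, range (w t)
  have hS : #S < 𝔠 := by
    refine (mk_iUnion_le_sum_mk.trans (sum_le_sum _ (fun _ => ℵ₀) fun t => ?_)).trans_lt ?_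
    · exact (w t).finite_range.countable.le_aleph0
    · rw [sum_const']
      exact mul_lt_of_lt aleph0_le_continuum hT aleph0_lt_continuum
  let L := Subfield.closure S
  have hL : #L < 𝔠 := (Subfield.cardinalMk_closure_le_max S).trans_lt
    (max_lt hS aleph0_lt_continuum)
  have : Infinite L := Infinite.of_injective _ Nat.cast_injective
  have hr : Module.rank L K = 𝔠 := by
    rw [Module.Free.rank_eq_mk_of_infinite_lt L K (by simpa [card_K] using hL), card_K]
  let b := Module.Free.chooseBasis L K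
  obtain ⟨e⟩ : Nonempty (I ↪ Module.Free.ChooseBasisIndex L K) := by
    rw [← Cardinal.le_def, ← Module.Free.rank_eq_card_chooseBasisIndex, hr]
    exact hI
  have li : LinearIndependent L (fun i => b (e i)) := b.linearIndependent.comp _ e.injective
  refine ⟨Finsupp.linearCombination K (fun i => b (e i)), fun t ht h0 => ht ?_⟩
  rw [linearIndependent_iff'] at li
  have := li (w t).support (fun i => ⟨w t i, Subfield.subset_closure (mem_iUnion.2 ⟨t, i, rfl⟩)⟩)
    (by rw [Finsupp.linearCombination_apply, Finsupp.sum] at h0; exact h0)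
  ext i
  by_contra hi
  exact hi (congrArg Subtype.val (this i (Finsupp.mem_support_iff.2 hi)))

lemma avoid' {I T : Type} (hI : #I ≤ 𝔠) (hT : #T < 𝔠) (w : T → I →₀ K) (s : ℕ → I →₀ K) :
    ∃ f : (I →₀ K) →ₗ[K] K, (∀ t, w t ≠ 0 → f (w t) ≠ 0) ∧
      ((∃ h : (I →₀ K) →ₗ[K] K, ∀ N, h (s N) = 1) → ¬ Tendsto (fun N => f (s N)) atTop (𝓝 0)) := by
  obtain ⟨f, hf⟩ := avoid hI hT w
  by_cases h0 : (∃ h : (I →₀ K) →ₗ[K] K, ∀ N, h (s N) = 1) ∧
      Tendsto (fun N => f (s N)) atTop (𝓝 0)
  swap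
  · exact ⟨f, hf, fun h h' => h0 ⟨h, h'⟩⟩
  obtain ⟨⟨h, hh⟩, hlim⟩ := h0
  obtain ⟨c, hc⟩ : ∃ c : K, c ∉ insert 0 (range fun t => -f (w t) / h (w t)) := by
    by_contra hc
    push Not at hc
    have h1 : #K ≤ #T + 1 := by
      rw [← mk_univ, ← eq_univ_of_forall hc]
      exact mk_insert_le.trans (add_le_add_left mk_range_le _)
    rw [card_K] at h1
    exact absurd (add_one_lt_of_lt aleph0_le_continuum hT) (not_lt.2 h1)
  simp only [mem_insert_iff, mem_range, not_or, not_exists] at hc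
  refine ⟨f + c • h, fun t ht h1 => ?_, fun _ h1 => hc.1 ?_⟩
  · simp only [LinearMap.add_apply, LinearMap.smul_apply, smul_eq_mul] at h1
    by_cases h2 : h (w t) = 0
    · exact hf t ht (by simpa [h2] using h1)
    · exact hc.2 t (by field_simp; linear_combination -h1)
  · simp only [LinearMap.add_apply, LinearMap.smul_apply, hh, smul_eq_mul, mul_one] at h1
    simpa using tendsto_nhds_unique (hlim.add_const c) h1

lemma exists_killed {E : Type} [AddCommGroup E] [Module K E] (s : ℕ → E)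
    (hs : LinearIndependent K s) {J : Type} [Fintype J] (g : J → E →ₗ[K] K) :
    ∃ w ∈ Submodule.span K (range s), w ≠ 0 ∧ ∀ j, g j w = 0 := by
  by_contra hc
  push Not at hc
  have inj : Function.Injective ((LinearMap.pi g) ∘ₗ Finsupp.linearCombination K s) := by
    rw [injective_iff_map_eq_zero]
    intro a ha
    by_contra h0
    obtain ⟨j, hj⟩ := hc (Finsupp.linearCombination K s a)
      (Finsupp.range_linearCombination K (v := s) ▸ LinearMap.mem_range_self _ a)
      (fun h => h0 (linearIndependent_iff.1 hs a h))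
    exact hj (congrFun ha j)
  exact Module.Finite.not_linearIndependent_of_infinite _
    ((Finsupp.basisSingleOne (R := K) (ι := ℕ)).linearIndependent.map' _
      (LinearMap.ker_eq_bot.2 inj))

lemma core : ∃ (I : Type) (_ : LinearOrder I) (f : I → (I →₀ K) →ₗ[K] K), Infinite I ∧
    (∀ s : ℕ → I →₀ K, (∃ h : (I →₀ K) →ₗ[K] K, ∀ N, h (s N) = 1) →
      ∃ γ, ¬ Tendsto (fun N => f γ (s N)) atTop (𝓝 0)) ∧
    ∀ s : ℕ → I →₀ K, LinearIndependent K s → ∃ δ, (∀ N, s N δ = 0) ∧ ∀ y : I →₀ K,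
      (∀ N, Finsupp.linearCombination K f y (s N) = 0) →
      Finsupp.linearCombination K f y (Finsupp.single δ 1) = 0 := by
  classical
  let I := (𝔠 : Cardinal.{0}).ord.ToType
  have hI : #I = 𝔠 := by simp [I]
  have hinf : Infinite I := infinite_iff.2 (hI ▸ aleph0_le_continuum)
  have hIic : ∀ γ : I, #(Iic γ) < 𝔠 := fun γ =>
    (mk_Iic_lt γ (by simp [I]) (aleph0_le_continuum.trans hI.ge)).trans_eq hI
  have hbd : ∀ C : Set I, C.Countable → ∃ α, ∀ δ ∈ C, δ < α := fun C hC => by
    rw [← not_isCofinal_iff]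
    intro h
    have h1 := (Order.cof_le h).trans hC.le_aleph0
    rw [Ordinal.cof_toType] at h1
    exact absurd (lt_cof_ord_power le_rfl (by norm_num : (1 : Cardinal) < 2)) (not_lt.2 h1)
  have hbs : ∀ s : ℕ → I →₀ K, ∃ α, ∀ N δ, s N δ ≠ 0 → δ < α := fun s => by
    obtain ⟨α, h⟩ := hbd (⋃ N, (s N).support) (countable_iUnion fun N => Finset.countable_toSet _)
    exact ⟨α, fun N δ hδ => h δ (mem_iUnion.2 ⟨N, by simpa using hδ⟩)⟩
  obtain ⟨e⟩ : Nonempty (I ≃ (ℕ → I →₀ K) × I) := by
    rw [← Cardinal.eq]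
    simp [hI, card_K]
  have hrep : ∀ (s : ℕ → I →₀ K) (α : I), ∃ γ, α < γ ∧ (e γ).1 = s := fun s α => by
    by_contra hc
    push Not at hc
    have : #I ≤ #(Iic α) := mk_le_of_injective (f := fun δ : I => (⟨e.symm (s, δ),
      not_lt.1 fun h => hc _ h (by simp)⟩ : Iic α)) fun a b h =>
        (Prod.mk.inj (e.symm.injective (Subtype.mk.inj h))).2
    exact absurd (hIic α) (not_lt.2 (hI.ge.trans this))
  let P : I → (I → (I →₀ K) →ₗ[K] K) → ((I →₀ K) →ₗ[K] K) → Prop := fun γ g d =>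
    (∀ δ, γ < δ → d (Finsupp.single δ 1) = 0) ∧
    ((∀ N δ, (e γ).1 N δ ≠ 0 → δ ≤ γ) → (∃ h : (I →₀ K) →ₗ[K] K, ∀ N, h ((e γ).1 N) = 1) →
      ¬ Tendsto (fun N => d ((e γ).1 N)) atTop (𝓝 0)) ∧
    ∀ α ≤ γ, (∀ N δ, (e α).1 N δ ≠ 0 → δ ≤ γ) → LinearIndependent K (e α).1 →
      ∀ J : List (Iic γ), ∃ w ∈ Submodule.span K (range (e α).1), d w ≠ 0 ∧ ∀ β ∈ J, g β w = 0
  have step : ∀ γ g, ∃ d, P γ g d := by
    intro γ g
    have ch : ∀ t : Iic γ × List (Iic γ), ∃ w : I →₀ K, LinearIndependent K (e t.1).1 →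
        w ∈ Submodule.span K (range (e t.1).1) ∧ w ≠ 0 ∧ ∀ β ∈ t.2, g β w = 0 := fun t => by
      by_cases h : LinearIndependent K (e t.1).1
      · obtain ⟨w, h1, h2, h3⟩ := exists_killed _ h (fun j : Fin t.2.length => g (t.2.get j))
        refine ⟨w, fun _ => ⟨h1, h2, fun β hβ => ?_⟩⟩
        obtain ⟨j, rfl⟩ := List.get_of_mem hβ
        exact h3 j
      · exact ⟨0, fun h' => absurd h' h⟩
    choose w hw using ch
    obtain ⟨φ, h1, h2⟩ := avoid' hI.le (T := Iic γ × List (Iic γ)) (by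
      rw [mk_prod, lift_id, lift_id]
      exact mul_lt_of_lt aleph0_le_continuum (hIic γ)
        ((mk_list_le_max _).trans_lt (max_lt aleph0_lt_continuum (hIic γ)))) w (e γ).1
    let d : (I →₀ K) →ₗ[K] K :=
      Finsupp.linearCombination K fun δ => if δ ≤ γ then φ (Finsupp.single δ 1) else 0
    have hd : ∀ v : I →₀ K, (∀ δ, v δ ≠ 0 → δ ≤ γ) → d v = φ v := fun v hv => by
      conv_rhs => rw [← Finsupp.sum_single v, Finsupp.sum, map_sum]
      rw [Finsupp.linearCombination_apply, Finsupp.sum]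
      refine Finset.sum_congr rfl fun δ hδ => ?_
      rw [if_pos (hv δ (Finsupp.mem_support_iff.1 hδ)), ← map_smul, Finsupp.smul_single_one]
    have hd' : ∀ s : ℕ → I →₀ K, (∀ N δ, s N δ ≠ 0 → δ ≤ γ) →
        ∀ v ∈ Submodule.span K (range s), d v = φ v := fun s hs v hv =>
      LinearMap.eqOn_span (by rintro _ ⟨N, rfl⟩; exact hd _ (hs N)) hv
    refine ⟨d, fun δ hδ => by simp [d, not_le.2 hδ], fun h3 h4 => ?_, fun α hα h3 h4 J => ?_⟩
    · simp only [fun N => hd _ (h3 N)]
      exact h2 h4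
    · obtain ⟨a1, a2, a3⟩ := hw (⟨α, hα⟩, J) h4
      exact ⟨_, a1, by rw [hd' _ h3 _ a1]; exact h1 _ a2, a3⟩
  choose F hF using step
  let f : I → (I →₀ K) →ₗ[K] K := WellFounded.fix wellFounded_lt
    fun γ ih => F γ fun β => if h : β < γ then ih β h else 0
  have hf : ∀ γ, P γ (fun β => if β < γ then f β else 0) (f γ) := fun γ => by
    have : f γ = F γ fun β => if β < γ then f β else 0 := by
      simp only [f]
      rw [WellFounded.fix_eq]
      simp
    rw [this]
    exact hF _ _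
  refine ⟨I, inferInstance, f, hinf, fun s hs => ?_, fun s hs => ?_⟩
  · obtain ⟨α, hα⟩ := hbs s
    obtain ⟨γ, hγ, rfl⟩ := hrep s α
    exact ⟨γ, (hf γ).2.1 (fun N δ h => ((hα N δ h).trans hγ).le) hs⟩
  · obtain ⟨α, hα⟩ := hbs s
    obtain ⟨δ, hδ, rfl⟩ := hrep s α
    refine ⟨δ, fun N => by_contra fun h => lt_asymm hδ (hα N δ h), fun y hy => ?_⟩
    have hs' : ∀ γ ∈ y.support, γ < δ := by
      by_contra hc
      push Not at hc
      obtain ⟨γ0, h0, h1⟩ := hc
      set γ := y.support.max' ⟨γ0, h0⟩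
      have hγ : δ ≤ γ := h1.trans (y.support.le_max' _ h0)
      obtain ⟨w, hw1, hw2, hw3⟩ := (hf γ).2.2 δ hγ
        (fun N β h => ((hα N β h).trans hδ).le.trans hγ) hs
        (y.support.attach.toList.map fun β : y.support => (⟨β.1, y.support.le_max' β.1 β.2⟩ : Iic γ))
      have h3 : Finsupp.linearCombination K f y w = 0 :=
        LinearMap.eqOn_span (g := 0) (by rintro _ ⟨N, rfl⟩; exact hy N) hw1
      rw [Finsupp.linearCombination_apply, Finsupp.sum, LinearMap.sum_apply,
        Finset.sum_eq_single γ] at h3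
      · exact mul_ne_zero (Finsupp.mem_support_iff.1 (y.support.max'_mem _)) hw2 h3
      · intro β hβ hne
        have := hw3 ⟨β, y.support.le_max' _ hβ⟩ (List.mem_map.2 ⟨⟨β, hβ⟩, by simp, rfl⟩)
        have hlt : β < γ := (y.support.le_max' _ hβ).lt_of_ne hne
        simp only [hlt, if_true] at this
        simp [this]
      · intro h
        exact absurd (y.support.max'_mem _) h
    rw [Finsupp.linearCombination_apply, Finsupp.sum, LinearMap.sum_apply]
    exact Finset.sum_eq_zero fun γ hγ => by simp [(hf γ).1 δ (hs' γ hγ)]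

theorem result (K : Type) [RCLike K] :
    ∃ (U : Type) (_ : AddCommGroup U) (_ : Module K U) (_ : TopologicalSpace U)
      (ι : Type) (p : SeminormFamily K U ι), WithSeminorms p ∧ T2Space U ∧
      IsTopologicalAddGroup U ∧ ContinuousSMul K U ∧ ¬ Module.Finite K U ∧
      ∀ x : ℕ → U, ¬ IsBasicSeq K x := by
  obtain ⟨I, _, f, hinf, h2, h3⟩ := core (K := K)
  classical
  let Φ : (I →₀ K) →ₗ[K] (I → K) := LinearMap.pi f
  have inj : Function.Injective Φ := by
    rw [injective_iff_map_eq_zero]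
    intro v hv
    by_contra h0
    obtain ⟨δ, hδ⟩ := Finsupp.ne_iff.1 h0
    obtain ⟨γ, hγ⟩ := h2 (fun _ => v) ⟨(v δ)⁻¹ • Finsupp.lapply δ, fun _ => by
      simpa using inv_mul_cancel₀ hδ⟩
    apply hγ
    have : f γ v = 0 := congrFun hv γ
    simp [this]
  let τ : TopologicalSpace (I →₀ K) := TopologicalSpace.induced Φ inferInstance
  have hind : IsInducing Φ := ⟨rfl⟩
  have hadd : IsTopologicalAddGroup (I →₀ K) := Topology.IsInducing.topologicalAddGroup Φ hind
  refine ⟨I →₀ K, inferInstance, inferInstance, τ, _, _,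
    hind.withSeminorms (norm_withSeminorms K K |> fun h => withSeminorms_pi fun _ : I => h),
    (IsEmbedding.mk hind inj).t2Space, hadd, continuousSMul_induced Φ,
    fun h => ?_, fun x hx => ?_⟩
  · exact Module.Finite.not_linearIndependent_of_infinite _
      (Finsupp.basisSingleOne (R := K) (ι := I)).linearIndependent
  have li : LinearIndependent K x := by
    rw [linearIndependent_iff]
    intro a ha
    obtain ⟨c, -, hc⟩ := hx 0 (subset_closure (Submodule.zero_mem _))
    have e1 := hc (fun _ => 0) (by simpa using tendsto_const_nhds)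
    have e2 := hc a (by
      refine tendsto_const_nhds.congr' ?_
      filter_upwards [eventually_gt_atTop (a.support.sup id)] with N hN
      rw [← ha, Finsupp.linearCombination_apply, Finsupp.sum_of_support_subset]
      · exact fun n hn => Finset.mem_range.2 ((Finset.le_sup (f := id) hn).trans_lt hN)
      · simp)
    ext n
    rw [e2, ← e1]; rfl
  obtain ⟨δ, hδ, hcl⟩ := h3 x li
  set v : I →₀ K := Finsupp.single δ 1 with hvd
  have hv : v ∈ closure (Submodule.span K (range x) : Set (I →₀ K)) := by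
    rw [mem_closure_iff_nhds]
    intro t ht
    rw [hind.nhds_eq_comap, mem_comap] at ht
    obtain ⟨u, hu, hut⟩ := ht
    rw [nhds_pi, Filter.mem_pi'] at hu
    obtain ⟨J, r, hr, hru⟩ := hu
    let Ψ : (I →₀ K) →ₗ[K] (J → K) := LinearMap.pi fun j => f j
    have : Ψ v ∈ (Submodule.span K (range x)).map Ψ := by
      by_contra hc
      obtain ⟨ψ, h4, h5⟩ := Submodule.exists_le_ker_of_notMem hc
      have e : ∀ w, Finsupp.linearCombination K f (∑ j : J, Finsupp.single j.1
          (ψ fun k => if j = k then 1 else 0)) w = ψ (Ψ w) := fun w => by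
        rw [LinearMap.pi_apply_eq_sum_univ ψ]
        simp [Ψ, mul_comm]
      refine h4 ((e v).symm.trans (hcl _ fun N => (e _).trans ?_))
      exact h5 ⟨x N, Submodule.subset_span ⟨N, rfl⟩, rfl⟩
    obtain ⟨m, hm, e⟩ := this
    refine ⟨m, hut (hru fun j hj => ?_), hm⟩
    have : Φ m j = Φ v j := congrFun e ⟨j, hj⟩
    rw [this]
    exact mem_of_mem_nhds (hr j)
  obtain ⟨a, ha, -⟩ := hx v hv
  obtain ⟨γ, hγ⟩ := h2 (fun N => v - ∑ n ∈ Finset.range N, a n • x n) ⟨Finsupp.lapply δ, fun N => by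
    rw [map_sub, map_sum]
    simp [hvd, hδ]⟩
  apply hγ
  have := (((continuous_apply γ).comp hind.continuous).tendsto _).comp (ha.const_sub v)
  simpa [Φ, Function.comp_def] using this

end Pool.Agent.Results.MP_af568f_an.NoBasicSequence
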